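import Pool.Agent.Lib_MP_f59448_lc.Main

set_option autoImplicit false

/-!
# A function on the Turing degrees that is not uniformly representable

Definitions (in `Pool.Agent.Lib_MP_f59448_lc.Defs`): `Code`, `eval` (programs with an oracle and the
partial functions they compute), `Computes`, `TuringEq`, `Deg`, `deg`, `Via`, `Represents`.
-/

namespace Pool.Agent.Results.MP_f59448_lc.NotUniform

open UnifRep

/-- Let `z` be a real. There is a function `f : 𝒟 → 𝒟` on the Turing degrees with a Borel
representative `F`, and a continuous map `φ` from the Cantor space into the reals above `z`, such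
that for every enumeration `Φ` of the programs there is no pair `(G, t)` with the following three
properties: `G` represents `f` on the cone above `z`; if `x ≡_T y` via `e`, then `G x ≡_T G y` via
`t e`, for all `x`, `y` above `z`; and all sets `{x | G (φ x) n = m}` have the Baire property.
For computable `z` every real is above `z`. -/
theorem result (z : ℕ → ℕ) : ∃ (f : Deg → Deg) (φ : (ℕ → Bool) → (ℕ → ℕ)),
    (∃ F, Measurable F ∧ Represents F f) ∧ Continuous φ ∧ (∀ x, ∃ c, Computes c (φ x) z) ∧
    ∀ (Φ : ℕ → Code), Function.Surjective Φ → ∀ (G : (ℕ → ℕ) → (ℕ → ℕ)) (t : ℕ → ℕ),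
      (∀ x, (∃ c, Computes c x z) → deg (G x) = f (deg x)) →
      (∀ (x y : ℕ → ℕ) (e : ℕ), (∃ c, Computes c x z) → (∃ c, Computes c y z) → Via Φ e x y →
        Via Φ (t e) (G x) (G y)) →
      ∃ n m : ℕ, ¬ BaireMeasurableSet {x : ℕ → Bool | G (φ x) n = m} :=
  main z

end Pool.Agent.Results.MP_f59448_lc.NotUniform
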